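import Pool.Agent.H29.FX.Targets

/-!
# LOC: the Taylor formula for the integral points of a tower (MP_7ecdd4_nt)
-/

set_option autoImplicit false

open Finset MvPolynomial
open Pool.Agent.H29.FX

namespace Pool.Agent.H41.TFX

theorem loc_cast {n : ℕ} (m : ℕ) (x : Fin n → ℤ) (f : Pl n) :
    aeval (fun v => ((x v : ℤ) : ZMod m)) f = ((eval x f : ℤ) : ZMod m) := by
  induction f using MvPolynomial.induction_on with
  | C a => simp
  | add p q hp hq => simp only [map_add, hp, hq, Int.cast_add]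
  | mul_X p i hp => simp only [map_mul, hp, aeval_X, eval_X, Int.cast_mul]

theorem loc_unit {p s : ℕ} {a : ℤ} (hp : p.Prime) (h : ¬ (p : ℤ) ∣ a) :
    IsUnit ((a : ℤ) : ZMod (p ^ s)) := by
  rw [ZMod.coe_int_isUnit_iff_isCoprime]
  have h1 : IsCoprime (p : ℤ) a :=
    (Prime.coprime_iff_not_dvd (Nat.prime_iff_prime_int.1 hp)).2 h
  push_cast
  exact h1.pow_left

theorem pf_LOC (hLOR : T_LOR) (hFLC : T_FLC) : T_LOC := by
  intro n p s L x y hp hs hG hx hy hxy hJ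
  obtain ⟨t', ht1, ht2, ht3⟩ := hLOR n p s L (fun v => ((x v : ℤ) : ZMod (p ^ s)))
    (fun v => ((y v : ℤ) : ZMod (p ^ s))) hp hs hG
    (by
      intro v
      obtain ⟨d, hd⟩ := hxy v
      refine ⟨(d : ZMod (p ^ s)), ?_⟩
      show ((y v : ℤ) : ZMod (p ^ s)) - ((x v : ℤ) : ZMod (p ^ s)) = _
      rw [← Int.cast_sub, hd, Int.cast_mul, Int.cast_natCast])
    (by
      intro q hq
      rw [loc_cast, loc_cast, hx q hq, hy q hq]
      exact ⟨Int.cast_zero, Int.cast_zero⟩)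
    (by
      rw [loc_cast]
      exact loc_unit hp hJ)
  have hch : ∀ v, ∃ τ : ℤ, (v ∉ TI L → τ = 0) ∧
      t' v = (p : ZMod (p ^ s)) * ((τ : ℤ) : ZMod (p ^ s)) := by
    intro v
    by_cases hv : v ∈ TI L
    · obtain ⟨w, hw⟩ := ht1 v
      obtain ⟨τ, rfl⟩ := ZMod.intCast_surjective w
      exact ⟨τ, fun h => absurd hv h, hw⟩
    · exact ⟨0, fun _ => rfl, by rw [ht2 v hv, Int.cast_zero, mul_zero]⟩
  choose τ hτ1 hτ2 using hch
  refine ⟨τ, hτ1, fun f => ?_⟩
  rw [← loc_cast, ← ht3, hFLC n p s (TD L) t' _ f hp hs ht1]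
  unfold ts
  refine Finset.sum_congr rfl fun α _ => ?_
  rw [loc_cast]
  congr 1
  exact Finset.prod_congr rfl fun v _ => by rw [hτ2]

end Pool.Agent.H41.TFX
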